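import Pool.Agent.Helper76.NF.UnitPart

/-!
# The function `H` on the mixed space attached to a test function `G`
-/

set_option autoImplicit false

open Finset Filter Topology NumberField Module
open scoped Classical

namespace Pool.Agent.Helper76.NF

open Pool.Agent.Helper18.NF

section
variable {K : Type} [Field K] [NumberField K]

/-! ### the sign of the norm -/

/-- the product of the real coordinates -/
noncomputable def sg (y : mixedEmbedding.mixedSpace K) : ℝ :=
  ∏ w : {w : InfinitePlace K // w.IsReal}, y.1 w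

/-- the product of the values of the embeddings over the place `w` -/
theorem prod_fiber (w : InfinitePlace K) (x : K) :
    ∏ φ ∈ (univ : Finset (K →+* ℂ)) with InfinitePlace.mk φ = w, φ x =
      if w.IsReal then w.embedding x else ((w x : ℝ) : ℂ) ^ 2 := by
  have h1 : (univ : Finset (K →+* ℂ)).filter (fun φ => InfinitePlace.mk φ = w) =
      {w.embedding} ∪ {ComplexEmbedding.conjugate w.embedding} := by
    ext φ
    rw [mem_filter, mem_union, mem_singleton, mem_singleton]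
    constructor
    · rintro ⟨_, h⟩
      rw [← InfinitePlace.mk_embedding w, InfinitePlace.mk_eq_iff] at h
      rcases h with h | h
      · exact Or.inl h
      · right
        rw [← h]
        exact (star_star φ).symm
    · intro h
      refine ⟨mem_univ _, ?_⟩
      rw [← InfinitePlace.mk_embedding w, InfinitePlace.mk_eq_iff]
      rcases h with h | h
      · exact Or.inl h
      · right
        rw [h]
        exact star_star _
  rw [h1]
  split_ifs with hw
  · rw [ComplexEmbedding.isReal_iff.mp (InfinitePlace.isReal_iff.mp hw), Finset.union_idempotent,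
      Finset.prod_singleton]
  · have h2 : w.embedding ≠ ComplexEmbedding.conjugate w.embedding := by
      rwa [Ne, eq_comm, ← ComplexEmbedding.isReal_iff, ← InfinitePlace.isReal_iff]
    have h3 : ({w.embedding} ∪ {ComplexEmbedding.conjugate w.embedding} : Finset (K →+* ℂ)) =
        {w.embedding, ComplexEmbedding.conjugate w.embedding} := rfl
    rw [h3, Finset.prod_pair h2, ComplexEmbedding.conjugate_coe_eq, Complex.mul_conj,
      Complex.normSq_eq_norm_sq, InfinitePlace.norm_embedding_eq]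
    push_cast
    rfl

theorem norm_eq_sg (x : K) : ((Algebra.norm ℚ x : ℚ) : ℝ) =
    sg (mixedEmbedding K x) * ∏ w : {w : InfinitePlace K // w.IsComplex}, w.1 x ^ 2 := by
  have h := Algebra.norm_eq_prod_embeddings ℚ ℂ x
  rw [← Fintype.prod_equiv (RingHom.equivRatAlgHom K ℂ) (fun f => f x)
      (fun φ => φ x) fun _ => by simp [RingHom.equivRatAlgHom_apply],
    ← Finset.prod_fiberwise Finset.univ InfinitePlace.mk (fun φ => φ x)] at h
  simp_rw [prod_fiber] at h
  rw [InfinitePlace.prod_eq_prod_mul_prod] at h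
  have h4 : ∏ w : {w : InfinitePlace K // w.IsReal},
      (if w.1.IsReal then w.1.embedding x else ((w.1 x : ℝ) : ℂ) ^ 2) =
      ((sg (mixedEmbedding K x) : ℝ) : ℂ) := by
    unfold sg
    push_cast
    refine Finset.prod_congr rfl fun w _ => ?_
    rw [if_pos w.2, mixedEmbedding.mixedEmbedding_apply_isReal,
      InfinitePlace.embedding_of_isReal_apply]
  have h5 : ∏ w : {w : InfinitePlace K // w.IsComplex},
      (if w.1.IsReal then w.1.embedding x else ((w.1 x : ℝ) : ℂ) ^ 2) =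
      ((∏ w : {w : InfinitePlace K // w.IsComplex}, w.1 x ^ 2 : ℝ) : ℂ) := by
    push_cast
    refine Finset.prod_congr rfl fun w _ => ?_
    rw [if_neg (InfinitePlace.not_isReal_iff_isComplex.2 w.2)]
  rw [h4, h5] at h
  have h6 : (((Algebra.norm ℚ x : ℚ) : ℝ) : ℂ) = algebraMap ℚ ℂ (Algebra.norm ℚ x) := by
    simp
  rw [← h6] at h
  exact_mod_cast h

theorem sg_pos_iff (x : K) (hx : x ≠ 0) :
    0 < sg (mixedEmbedding K x) ↔ 0 < Algebra.norm ℚ x := by
  have h := norm_eq_sg x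
  have h1 : 0 < ∏ w : {w : InfinitePlace K // w.IsComplex}, w.1 x ^ 2 :=
    Finset.prod_pos fun w _ => by
      have : 0 < w.1 x := (InfinitePlace.pos_iff).2 hx
      positivity
  have h2 : (0 : ℝ) < ((Algebra.norm ℚ x : ℚ) : ℝ) ↔ 0 < Algebra.norm ℚ x := Rat.cast_pos
  rw [← h2, h]
  constructor
  · intro h3
    exact mul_pos h3 h1
  · intro h3
    exact (pos_iff_pos_of_mul_pos h3).2 h1

theorem sg_smul (t : ℝ) (y : mixedEmbedding.mixedSpace K) :
    sg (t • y) = t ^ Fintype.card {w : InfinitePlace K // w.IsReal} * sg y := by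
  unfold sg
  have h1 : ∀ w : {w : InfinitePlace K // w.IsReal}, (t • y).1 w = t * y.1 w := fun w => rfl
  simp_rw [h1]
  rw [Finset.prod_mul_distrib, Finset.prod_const, Finset.card_univ]

theorem sg_smul_pos {t : ℝ} (ht : 0 < t) (y : mixedEmbedding.mixedSpace K) :
    0 < sg (t • y) ↔ 0 < sg y := by
  rw [sg_smul]
  exact mul_pos_iff_of_pos_left (pow_pos ht _)

theorem Nm_emb_ne (t : ℝ) (ht : 0 < t) (x : K) (hx : x ≠ 0) :
    mixedEmbedding.norm (t • mixedEmbedding K x) ≠ 0 := by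
  have h1 : Nm K (t • mixedEmbedding K x) ≠ 0 := by
    rw [Nm_smul]
    refine mul_ne_zero (pow_ne_zero _ (abs_ne_zero.2 ht.ne')) ?_
    show mixedEmbedding.norm _ ≠ 0
    rw [mixedEmbedding.norm_eq_norm]
    have h2 : Algebra.norm ℚ x ≠ 0 := Algebra.norm_ne_zero_iff.2 hx
    exact_mod_cast abs_ne_zero.2 h2
  exact h1

/-- the function `H` -/
noncomputable def HH (Φ : mixedEmbedding.mixedSpace K → ℝ) (G : ℝ → ℂ)
    (y : mixedEmbedding.mixedSpace K) : ℂ :=
  if 0 < sg y then ((2 * Φ y : ℝ) : ℂ) * G (Nm K y) else 0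

end

section
variable {B : ℝ} {G : ℝ → ℂ}

theorem test_nonneg (h : IsTest B G) : 0 ≤ B := by
  have h1 := (norm_nonneg (G 0 - G 1)).trans (h.lip 0 1)
  simpa using h1

theorem test_bound (h : IsTest B G) (y : ℝ) : ‖G y‖ ≤ 3 * B := by
  have hB := test_nonneg h
  by_cases hy : y ≤ 1 ∨ 4 ≤ y
  · rw [h.supp y hy, norm_zero]
    positivity
  · push Not at hy
    have h1 := h.lip y 1
    rw [h.supp 1 (Or.inl le_rfl), sub_zero, abs_of_nonneg (by linarith [hy.1])] at h1
    have h2 : B * (y - 1) ≤ B * 3 := mul_le_mul_of_nonneg_left (by linarith [hy.2]) hB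
    linarith

end

section
variable {K : Type} [Field K] [NumberField K] {Φ : mixedEmbedding.mixedSpace K → ℝ} {R1 : ℝ}

theorem phi_le_one (h : IsPhi K Φ R1) (y : mixedEmbedding.mixedSpace K) : Φ y ≤ 1 := by
  by_cases hy : Φ y = 0
  · rw [hy]
    exact zero_le_one
  · have hN := (h.supp y hy).1
    have h1 := single_le_finsum (f := fun u : (𝓞 K)ˣ => Φ (u • y)) 1 (h.fin y hN.ne')
      fun v => h.nonneg _
    rw [h.sum y hN.ne'] at h1
    simpa using h1

theorem HH_bound (h : IsPhi K Φ R1) {B : ℝ} {G : ℝ → ℂ} (hG : IsTest B G)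
    (y : mixedEmbedding.mixedSpace K) : ‖HH Φ G y‖ ≤ 6 * B := by
  have hB := test_nonneg hG
  unfold HH
  split_ifs
  · rw [norm_mul, Complex.norm_real, Real.norm_eq_abs,
      abs_of_nonneg (mul_nonneg zero_le_two (h.nonneg y))]
    have h1 := phi_le_one h y
    have h2 := test_bound hG (Nm K y)
    have h3 := mul_le_mul (show 2 * Φ y ≤ 2 by linarith) h2 (norm_nonneg _) zero_le_two
    linarith
  · rw [norm_zero]
    positivity

theorem HH_supp (h : IsPhi K Φ R1) {B : ℝ} {G : ℝ → ℂ} (hG : IsTest B G)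
    (y : mixedEmbedding.mixedSpace K) (hy : HH Φ G y ≠ 0) :
    0 < sg y ∧ 1 < Nm K y ∧ ‖y‖ ≤ max 1 (4 * |R1|) := by
  unfold HH at hy
  split_ifs at hy with h1
  · have h2 : Φ y ≠ 0 := by
      intro h0
      apply hy
      rw [h0]
      simp
    have h3 : G (Nm K y) ≠ 0 := right_ne_zero_of_mul hy
    have h4 : 1 < Nm K y ∧ Nm K y < 4 := by
      by_contra hcon
      apply h3
      apply hG.supp
      by_contra hc2
      push Not at hc2
      exact hcon hc2
    refine ⟨h1, h4.1, ?_⟩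
    have h5 := (h.supp y h2).2
    by_contra hcon
    push Not at hcon
    have h6 : 1 ≤ ‖y‖ := ((le_max_left _ _).trans_lt hcon).le
    have hn : finrank ℚ K ≠ 0 := (finrank_pos (R := ℚ) (M := K)).ne'
    have h7 := le_self_pow₀ h6 hn
    have h8 : R1 * Nm K y ≤ |R1| * 4 :=
      mul_le_mul (le_abs_self _) h4.2.le (by linarith [h4.1]) (abs_nonneg _)
    have h9 : 4 * |R1| < ‖y‖ := (le_max_right _ _).trans_lt hcon
    have h10 : ‖y‖ ^ finrank ℚ K ≤ R1 * Nm K y := h5
    linarith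
  · exact absurd rfl hy

theorem sg_pos_near {ρ : ℝ} (hρ : 1 ≤ ρ) (y z : mixedEmbedding.mixedSpace K) (hy : y ∈ Reg K ρ)
    (hyz : ‖y - z‖ < (2 * ρ ^ finrank ℚ K)⁻¹) (h : 0 < sg y) : 0 < sg z := by
  have h1 : 0 < sg y * sg z := by
    unfold sg
    rw [← Finset.prod_mul_distrib]
    refine Finset.prod_pos fun w _ => ?_
    have h2 := nap_ge hρ w.1 y hy
    rw [mixedEmbedding.normAtPlace_apply_of_isReal w.2, Real.norm_eq_abs] at h2
    have h3 := nap_le w.1 (y - z)
    rw [mixedEmbedding.normAtPlace_apply_of_isReal w.2, Real.norm_eq_abs] at h3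
    have h4 : (y - z).1 w = y.1 w - z.1 w := rfl
    have h5 : |y.1 w - z.1 w| < |y.1 w| := by
      have h6 : |y.1 w - z.1 w| ≤ ‖y - z‖ := h3
      have h7 : (2 * ρ ^ finrank ℚ K)⁻¹ ≤ |y.1 w| := h2
      linarith
    rcases lt_trichotomy (y.1 w) 0 with h8 | h8 | h8
    · rw [abs_of_neg h8, abs_lt] at h5
      exact mul_pos_of_neg_of_neg h8 (by linarith [h5.1])
    · rw [h8, abs_zero] at h5
      exact absurd h5 (not_lt.2 (abs_nonneg _))
    · rw [abs_of_pos h8, abs_lt] at h5
      exact mul_pos h8 (by linarith [h5.2])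
  exact (pos_iff_pos_of_mul_pos h1).1 h

theorem HH_lip (h : IsPhi K Φ R1) : ∃ C : ℝ, 0 < C ∧ ∀ (B : ℝ) (G : ℝ → ℂ), IsTest B G →
    ∀ y z : mixedEmbedding.mixedSpace K, ‖HH Φ G y - HH Φ G z‖ ≤ C * B * ‖y - z‖ := by
  set ρ : ℝ := max 1 (4 * |R1|) with hρdef
  have hρ : 1 ≤ ρ := le_max_left _ _
  obtain ⟨C0, hC0, hlip⟩ := h.lip (ρ + 1)
  obtain ⟨L, hL, _, hNm⟩ := BL.Nm (K := K) {y | ‖y‖ ≤ ρ + 1} (ρ + 1) fun y hy => hy
  set c2 : ℝ := min 1 (min (2 * ρ ^ finrank ℚ K)⁻¹ (2 * L)⁻¹) with hc2def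
  have hρn : 0 < ρ ^ finrank ℚ K := by positivity
  have hc2 : 0 < c2 := lt_min one_pos (lt_min (by positivity) (by positivity))
  refine ⟨12 / c2 + (6 * C0 + 2 * L), by positivity, fun B G hG => ?_⟩
  have hB := test_nonneg hG
  have key : ∀ y z : mixedEmbedding.mixedSpace K, HH Φ G y ≠ 0 →
      ‖HH Φ G y - HH Φ G z‖ ≤ (12 / c2 + (6 * C0 + 2 * L)) * B * ‖y - z‖ := by
    intro y z hy
    obtain ⟨hs, hN, hyρ⟩ := HH_supp h hG y hy
    have hd0 : 0 ≤ ‖y - z‖ := norm_nonneg _
    have e : (12 / c2 + (6 * C0 + 2 * L)) * B * ‖y - z‖ =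
        12 / c2 * B * ‖y - z‖ + (6 * C0 + 2 * L) * B * ‖y - z‖ := by ring
    have e1 : 0 ≤ 12 / c2 * B * ‖y - z‖ := by positivity
    have e2 : 0 ≤ (6 * C0 + 2 * L) * B * ‖y - z‖ := by positivity
    rw [e]
    by_cases hd : ‖y - z‖ < c2
    · have d1 : ‖y - z‖ < 1 := hd.trans_le (min_le_left _ _)
      have d2 : ‖y - z‖ < (2 * ρ ^ finrank ℚ K)⁻¹ :=
        hd.trans_le ((min_le_right _ _).trans (min_le_left _ _))
      have d3 : ‖y - z‖ < (2 * L)⁻¹ :=
        hd.trans_le ((min_le_right _ _).trans (min_le_right _ _))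
      have hyR : y ∈ Reg K ρ := ⟨by linarith, hyρ⟩
      have hsz := sg_pos_near hρ y z hyR d2 hs
      have hz1 : ‖z‖ ≤ ρ + 1 := by
        have := norm_sub_norm_le z y
        rw [norm_sub_rev] at this
        linarith
      have hy1 : ‖y‖ ≤ ρ + 1 := by linarith
      have hNz := hNm y hy1 z hz1
      have hNz' : L * ‖y - z‖ < 1 / 2 := by
        have := mul_lt_mul_of_pos_left d3 hL
        have e3 : L * (2 * L)⁻¹ = 1 / 2 := by field_simp
        linarith
      have hNz2 : 1 / 2 ≤ Nm K z := by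
        have := abs_lt.1 (hNz.trans_lt hNz')
        linarith [this.2]
      have h3 := hlip y z (by linarith) hNz2 hy1 hz1
      unfold HH
      rw [if_pos hs, if_pos hsz]
      have h4 : ((2 * Φ y : ℝ) : ℂ) * G (Nm K y) - ((2 * Φ z : ℝ) : ℂ) * G (Nm K z) =
          ((2 * (Φ y - Φ z) : ℝ) : ℂ) * G (Nm K y) +
            ((2 * Φ z : ℝ) : ℂ) * (G (Nm K y) - G (Nm K z)) := by
        push_cast
        ring
      rw [h4]
      have h5 : ‖((2 * (Φ y - Φ z) : ℝ) : ℂ) * G (Nm K y)‖ ≤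
          (2 * (C0 * ‖y - z‖)) * (3 * B) := by
        rw [norm_mul, Complex.norm_real, Real.norm_eq_abs, abs_mul, abs_two]
        exact mul_le_mul (by linarith) (test_bound hG _) (norm_nonneg _) (by positivity)
      have h6 : ‖((2 * Φ z : ℝ) : ℂ) * (G (Nm K y) - G (Nm K z))‖ ≤
          2 * (B * (L * ‖y - z‖)) := by
        rw [norm_mul, Complex.norm_real, Real.norm_eq_abs,
          abs_of_nonneg (mul_nonneg zero_le_two (h.nonneg z))]
        have h7 := phi_le_one h z
        have h8 := (hG.lip (Nm K y) (Nm K z)).trans (mul_le_mul_of_nonneg_left hNz hB)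
        exact mul_le_mul (by linarith) h8 (norm_nonneg _) zero_le_two
      have h9 := norm_add_le (((2 * (Φ y - Φ z) : ℝ) : ℂ) * G (Nm K y))
        (((2 * Φ z : ℝ) : ℂ) * (G (Nm K y) - G (Nm K z)))
      have e4 : (2 * (C0 * ‖y - z‖)) * (3 * B) + 2 * (B * (L * ‖y - z‖)) =
        (6 * C0 + 2 * L) * B * ‖y - z‖ := by ring
      linarith
    · push Not at hd
      have h1 := norm_sub_le (HH Φ G y) (HH Φ G z)
      have h2 := HH_bound h hG y
      have h3 := HH_bound h hG z
      have h4 : 12 * B ≤ 12 / c2 * B * ‖y - z‖ := by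
        have : 12 * B = 12 / c2 * B * c2 := by field_simp
        rw [this]
        exact mul_le_mul_of_nonneg_left hd (by positivity)
      linarith
  intro y z
  by_cases hy : HH Φ G y = 0
  · by_cases hz : HH Φ G z = 0
    · rw [hy, hz, sub_self, norm_zero]
      positivity
    · have := key z y hz
      rwa [norm_sub_rev, norm_sub_rev z y] at this
  · exact key y z hy

omit [NumberField K] in
/-- the action of a unit on an element -/
theorem emb_unit_mul (u : (𝓞 K)ˣ) (x : K) :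
    mixedEmbedding K (((u : 𝓞 K) : K) * x) = u • mixedEmbedding K x := by
  rw [mixedEmbedding.unitSMul_smul, map_mul]

theorem HH_apply (G : ℝ → ℂ) (x : K) (hx : x ≠ 0) (t : ℝ) (ht : 0 < t)
    (u : (𝓞 K)ˣ) : HH Φ G (t • mixedEmbedding K (((u : 𝓞 K) : K) * x)) =
    ((if 0 < Algebra.norm ℚ (((u : 𝓞 K) : K) * x) then 2 * Φ (u • (t • mixedEmbedding K x))
      else 0 : ℝ) : ℂ) * G (t ^ finrank ℚ K * |((Algebra.norm ℚ x : ℚ) : ℝ)|) := by
  have hu : ((u : 𝓞 K) : K) * x ≠ 0 := by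
    refine mul_ne_zero ?_ hx
    simp
  unfold HH
  have h1 : Nm K (t • mixedEmbedding K (((u : 𝓞 K) : K) * x)) =
      t ^ finrank ℚ K * |((Algebra.norm ℚ x : ℚ) : ℝ)| := by
    rw [Nm_smul, abs_of_pos ht, emb_unit_mul, Nm_unit]
    show _ * mixedEmbedding.norm _ = _
    rw [mixedEmbedding.norm_eq_norm]
    push_cast
    rfl
  rw [h1]
  by_cases hp : 0 < Algebra.norm ℚ (((u : 𝓞 K) : K) * x)
  · rw [if_pos ((sg_smul_pos ht _).2 ((sg_pos_iff _ hu).2 hp)), if_pos hp, emb_unit_mul,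
      smul_unit_comm]
  · rw [if_neg (fun h2 => hp ((sg_pos_iff _ hu).1 ((sg_smul_pos ht _).1 h2))), if_neg hp]
    simp

theorem norm_neg_unit (hn : Odd (finrank ℚ K)) (u : (𝓞 K)ˣ) (x : K) :
    Algebra.norm ℚ ((((-u : (𝓞 K)ˣ) : 𝓞 K) : K) * x) =
      - Algebra.norm ℚ (((u : 𝓞 K) : K) * x) := by
  have h1 : (((-u : (𝓞 K)ˣ) : 𝓞 K) : K) * x =
      algebraMap ℚ K (-1) * (((u : 𝓞 K) : K) * x) := by
    rw [Units.val_neg]
    simp
  rw [h1, map_mul, Algebra.norm_algebraMap, hn.neg_one_pow]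
  ring

theorem half_sum (h : IsPhi K Φ R1) (hn : Odd (finrank ℚ K)) (x : K) (hx : x ≠ 0) (t : ℝ)
    (ht : 0 < t) : ∑ᶠ u : (𝓞 K)ˣ, (if 0 < Algebra.norm ℚ (((u : 𝓞 K) : K) * x) then
      2 * Φ (u • (t • mixedEmbedding K x)) else 0 : ℝ) = 1 := by
  set y := t • mixedEmbedding K x with hy
  have hNy : mixedEmbedding.norm y ≠ 0 := Nm_emb_ne t ht x hx
  have hfin := h.fin y hNy
  have hne : ∀ u : (𝓞 K)ˣ, Algebra.norm ℚ (((u : 𝓞 K) : K) * x) ≠ 0 := by
    intro u
    rw [Ne, Algebra.norm_eq_zero_iff]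
    refine mul_ne_zero ?_ hx
    simp
  set g : (𝓞 K)ˣ → ℝ := fun u => if 0 < Algebra.norm ℚ (((u : 𝓞 K) : K) * x) then
      Φ (u • y) else 0 with hg
  set g' : (𝓞 K)ˣ → ℝ := fun u => if 0 < Algebra.norm ℚ (((u : 𝓞 K) : K) * x) then
      0 else Φ (u • y) with hg'
  have hgfin : (Function.support g).Finite := by
    refine hfin.subset fun u hu h0 => hu ?_
    simp only [hg, h0, ite_self]
  have hgfin' : (Function.support g').Finite := by
    refine hfin.subset fun u hu h0 => hu ?_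
    simp only [hg', h0, ite_self]
  have h1 : ∑ᶠ u, (g u + g' u) = 1 := by
    rw [← h.sum y hNy]
    refine finsum_congr fun u => ?_
    simp only [hg, hg']
    split_ifs <;> simp
  rw [finsum_add_distrib hgfin hgfin'] at h1
  have h2 : ∑ᶠ u, g' u = ∑ᶠ u, g u := by
    rw [← finsum_comp_equiv (Equiv.neg (𝓞 K)ˣ) (f := g)]
    refine finsum_congr fun u => ?_
    simp only [hg, hg', Equiv.neg_apply]
    rw [norm_neg_unit hn]
    have h3 : Φ ((-u) • y) = Φ (u • y) := by
      have h4 : (-u) • y = (-1 : ℝ) • (u • y) := by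
        rw [mixedEmbedding.unitSMul_smul, mixedEmbedding.unitSMul_smul, Units.val_neg, map_neg,
          map_neg, neg_mul, neg_smul, one_smul]
      rw [h4, h.smul _ _ (by norm_num)]
    rw [h3]
    rcases lt_or_gt_of_ne (hne u) with h5 | h5
    · rw [if_neg (not_lt.2 h5.le), if_pos (by linarith)]
    · rw [if_pos h5, if_neg (by linarith)]
  rw [h2] at h1
  have h5 : ∀ u : (𝓞 K)ˣ, (if 0 < Algebra.norm ℚ (((u : 𝓞 K) : K) * x) then
      2 * Φ (u • y) else 0 : ℝ) = 2 * g u := by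
    intro u
    simp only [hg]
    split_ifs <;> simp
  rw [finsum_congr h5, ← mul_finsum]
  linarith

end

/-- **N3.** The functions `H` exist. -/
theorem hEx (h : UnitPart) : HEx := by
  intro K _ _ hn
  obtain ⟨Φ, R1, hΦ⟩ := h K
  obtain ⟨C, hC, hlip⟩ := HH_lip hΦ
  refine ⟨C, max 1 (4 * |R1|), hC, by positivity, fun B G hG => ⟨HH Φ G, ?_, ?_, ?_, ?_, ?_⟩⟩
  · exact hlip B G hG
  · intro y hy
    by_contra hcon
    exact absurd (HH_supp hΦ hG y hcon).2.2 (not_le.2 hy)
  · intro x t ht hne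
    have hx : x ≠ 0 := by
      rintro rfl
      have h1 := (HH_supp hΦ hG _ hne).2.1
      rw [map_zero, smul_zero] at h1
      have h2 : Nm K (0 : mixedEmbedding.mixedSpace K) = 0 := map_zero _
      rw [h2] at h1
      norm_num at h1
    exact (sg_pos_iff x hx).1 ((sg_smul_pos ht _).1 (HH_supp hΦ hG _ hne).1)
  · intro x t hx ht
    have hNy := Nm_emb_ne t ht x hx
    refine (hΦ.fin _ hNy).subset fun u hu h0 => hu ?_
    rw [HH_apply G x hx t ht u, h0]
    simp
  · intro x t hx ht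
    rw [finsum_congr (fun u => HH_apply G x hx t ht u)]
    have h1 := half_sum hΦ hn x hx t ht
    have h2 : (Function.support fun u : (𝓞 K)ˣ =>
        ((if 0 < Algebra.norm ℚ (((u : 𝓞 K) : K) * x) then
          2 * Φ (u • (t • mixedEmbedding K x)) else 0 : ℝ) : ℂ)).Finite := by
      have hNy := Nm_emb_ne t ht x hx
      refine (hΦ.fin _ hNy).subset fun u hu h0 => hu ?_
      simp only [h0, mul_zero, ite_self, Complex.ofReal_zero]
    rw [← finsum_mul' _ _ h2]
    have h3 : ∑ᶠ u : (𝓞 K)ˣ, ((if 0 < Algebra.norm ℚ (((u : 𝓞 K) : K) * x) then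
          2 * Φ (u • (t • mixedEmbedding K x)) else 0 : ℝ) : ℂ) = 1 := by
      have h4 := congrArg Complex.ofReal h1
      rw [Complex.ofReal_one] at h4
      rw [← h4]
      exact (Complex.ofRealHom.toAddMonoidHom.map_finsum (by
        refine h2.subset fun u hu h0 => hu ?_
        exact Complex.ofReal_eq_zero.1 h0)).symm
    rw [h3, one_mul]

end Pool.Agent.Helper76.NF
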