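import Pool.Agent.Helper18.NF.StN

/-!
# A Lipschitz partition of unity for the action of the units on the mixed space
-/

set_option autoImplicit false

open Finset Filter Topology NumberField Module
open scoped Classical

namespace Pool.Agent.Helper76.NF

open Pool.Agent.Helper18.NF

/-! ### bounded Lipschitz functions on a set -/

/-- bounded and Lipschitz on `A` -/
def BL {E : Type} [NormedAddCommGroup E] (A : Set E) (f : E → ℝ) : Prop :=
  ∃ C : ℝ, 0 < C ∧ (∀ y ∈ A, |f y| ≤ C) ∧ ∀ y ∈ A, ∀ z ∈ A, |f y - f z| ≤ C * ‖y - z‖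

section
variable {E : Type} [NormedAddCommGroup E] {A : Set E} {f g : E → ℝ}

theorem BL.congr (h : BL A f) (hfg : ∀ y ∈ A, g y = f y) : BL A g := by
  obtain ⟨C, hC, h1, h2⟩ := h
  refine ⟨C, hC, fun y hy => by rw [hfg y hy]; exact h1 y hy, fun y hy z hz => ?_⟩
  rw [hfg y hy, hfg z hz]
  exact h2 y hy z hz

theorem BL.const (c : ℝ) : BL A (fun _ => c) := by
  refine ⟨|c| + 1, by positivity, fun y _ => by linarith, fun y _ z _ => ?_⟩
  rw [sub_self, abs_zero]
  positivity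

theorem BL.add (hf : BL A f) (hg : BL A g) : BL A (fun y => f y + g y) := by
  obtain ⟨C, hC, h1, h2⟩ := hf
  obtain ⟨D, hD, h3, h4⟩ := hg
  refine ⟨C + D, by positivity, fun y hy => ?_, fun y hy z hz => ?_⟩
  · exact (abs_add_le _ _).trans (add_le_add (h1 y hy) (h3 y hy))
  · have : f y + g y - (f z + g z) = (f y - f z) + (g y - g z) := by ring
    rw [this]
    refine (abs_add_le _ _).trans ?_
    have := h2 y hy z hz
    have := h4 y hy z hz
    linarith

theorem BL.mul (hf : BL A f) (hg : BL A g) : BL A (fun y => f y * g y) := by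
  obtain ⟨C, hC, h1, h2⟩ := hf
  obtain ⟨D, hD, h3, h4⟩ := hg
  refine ⟨2 * (C * D), by positivity, fun y hy => ?_, fun y hy z hz => ?_⟩
  · rw [abs_mul]
    have := mul_le_mul (h1 y hy) (h3 y hy) (abs_nonneg _) hC.le
    have h5 : 0 < C * D := by positivity
    linarith
  · have : f y * g y - f z * g z = (f y - f z) * g y + f z * (g y - g z) := by ring
    rw [this]
    refine (abs_add_le _ _).trans ?_
    rw [abs_mul, abs_mul]
    have h5 := mul_le_mul (h2 y hy z hz) (h3 y hy) (abs_nonneg _) (by positivity)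
    have h6 := mul_le_mul (h1 z hz) (h4 y hy z hz) (abs_nonneg _) hC.le
    linarith

theorem BL.sum {ι : Type} (s : Finset ι) (f : ι → E → ℝ) (h : ∀ i ∈ s, BL A (f i)) :
    BL A (fun y => ∑ i ∈ s, f i y) := by
  induction s using Finset.induction_on with
  | empty => simpa using BL.const (A := A) 0
  | insert a s ha ih =>
    refine BL.congr ((h a (mem_insert_self _ _)).add (ih fun i hi => h i (mem_insert_of_mem hi)))
      fun y _ => ?_
    rw [sum_insert ha]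

theorem BL.prod {ι : Type} (s : Finset ι) (f : ι → E → ℝ) (h : ∀ i ∈ s, BL A (f i)) :
    BL A (fun y => ∏ i ∈ s, f i y) := by
  induction s using Finset.induction_on with
  | empty => simpa using BL.const (A := A) 1
  | insert a s ha ih =>
    refine BL.congr ((h a (mem_insert_self _ _)).mul (ih fun i hi => h i (mem_insert_of_mem hi)))
      fun y _ => ?_
    rw [prod_insert ha]

theorem BL.pow (hf : BL A f) (n : ℕ) : BL A (fun y => f y ^ n) := by
  induction n with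
  | zero => simpa using BL.const (A := A) 1
  | succ n ih =>
    refine BL.congr (ih.mul hf) fun y _ => ?_
    rw [pow_succ]

theorem BL.inv (hf : BL A f) (c : ℝ) (hc : 0 < c) (h : ∀ y ∈ A, c ≤ f y) :
    BL A (fun y => (f y)⁻¹) := by
  obtain ⟨C, hC, h1, h2⟩ := hf
  refine ⟨c⁻¹ + C * (c⁻¹ * c⁻¹), by positivity, fun y hy => ?_, fun y hy z hz => ?_⟩
  · have h3 : 0 < f y := hc.trans_le (h y hy)
    rw [abs_of_pos (inv_pos.2 h3)]
    have h4 : (f y)⁻¹ ≤ c⁻¹ := inv_anti₀ hc (h y hy)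
    have h5 : 0 < C * (c⁻¹ * c⁻¹) := by positivity
    linarith
  · have h3 : 0 < f y := hc.trans_le (h y hy)
    have h4 : 0 < f z := hc.trans_le (h z hz)
    have h5 : (f y)⁻¹ - (f z)⁻¹ = (f z - f y) * ((f y)⁻¹ * (f z)⁻¹) := by
      field_simp
    rw [h5, abs_mul, abs_sub_comm, abs_of_pos (mul_pos (inv_pos.2 h3) (inv_pos.2 h4))]
    have h6 : (f y)⁻¹ * (f z)⁻¹ ≤ c⁻¹ * c⁻¹ :=
      mul_le_mul (inv_anti₀ hc (h y hy)) (inv_anti₀ hc (h z hz)) (inv_pos.2 h4).le (by positivity)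
    have h7 := mul_le_mul (h2 y hy z hz) h6 (by positivity) (by positivity)
    have h8 : 0 ≤ c⁻¹ * ‖y - z‖ := by positivity
    linarith

theorem BL.comp (hf : BL A f) (ω : ℝ → ℝ) (D : ℝ) (hD : 0 < D)
    (h1 : ∀ x, |ω x| ≤ D) (h2 : ∀ x x', |ω x - ω x'| ≤ D * |x - x'|) :
    BL A (fun y => ω (f y)) := by
  obtain ⟨C, hC, h3, h4⟩ := hf
  refine ⟨D + D * C, by positivity, fun y _ => ?_, fun y hy z hz => ?_⟩
  · have : 0 < D * C := by positivity
    linarith [h1 (f y)]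
  · have h5 := (h2 (f y) (f z)).trans (mul_le_mul_of_nonneg_left (h4 y hy z hz) hD.le)
    have h6 : 0 ≤ D * ‖y - z‖ := by positivity
    linarith

end

/-! ### the mixed space -/

section
variable (K : Type) [Field K] [NumberField K]

local instance : Fact (0 < finrank ℚ K) := ⟨finrank_pos⟩

/-- the norm of the mixed space -/
noncomputable abbrev Nm (y : mixedEmbedding.mixedSpace K) : ℝ := mixedEmbedding.norm y

/-- the region where the norm is bounded from below -/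
def Reg (ρ : ℝ) : Set (mixedEmbedding.mixedSpace K) := {y | 1 / 2 ≤ Nm K y ∧ ‖y‖ ≤ ρ}

variable {K}

theorem nap_le (w : InfinitePlace K) (y : mixedEmbedding.mixedSpace K) :
    mixedEmbedding.normAtPlace w y ≤ ‖y‖ := by
  rw [mixedEmbedding.norm_eq_sup'_normAtPlace]
  exact Finset.le_sup' (fun w => mixedEmbedding.normAtPlace w y) (mem_univ w)

theorem nap_sub_le (w : InfinitePlace K) (y z : mixedEmbedding.mixedSpace K) :
    |mixedEmbedding.normAtPlace w y - mixedEmbedding.normAtPlace w z| ≤ ‖y - z‖ := by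
  have h1 := mixedEmbedding.normAtPlace_add_le w (y - z) z
  have h2 := mixedEmbedding.normAtPlace_add_le w (z - y) y
  rw [sub_add_cancel] at h1 h2
  have h3 := nap_le w (y - z)
  have h4 := nap_le w (z - y)
  rw [norm_sub_rev z y] at h4
  rw [abs_le]
  constructor <;> linarith

theorem BL.nap (w : InfinitePlace K) (A : Set (mixedEmbedding.mixedSpace K)) (ρ : ℝ)
    (hA : ∀ y ∈ A, ‖y‖ ≤ ρ) : BL A (fun y => mixedEmbedding.normAtPlace w y) := by
  refine ⟨|ρ| + 1, by positivity, fun y hy => ?_, fun y hy z hz => ?_⟩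
  · rw [abs_of_nonneg (mixedEmbedding.normAtPlace_nonneg w y)]
    linarith [nap_le w y, hA y hy, le_abs_self ρ]
  · have h1 := nap_sub_le w y z
    have h2 : 0 ≤ |ρ| * ‖y - z‖ := by positivity
    linarith

theorem BL.norm (A : Set (mixedEmbedding.mixedSpace K)) (ρ : ℝ)
    (hA : ∀ y ∈ A, ‖y‖ ≤ ρ) : BL A (fun y => ‖y‖) := by
  refine ⟨|ρ| + 1, by positivity, fun y hy => ?_, fun y hy z hz => ?_⟩
  · rw [abs_of_nonneg (norm_nonneg y)]
    linarith [hA y hy, le_abs_self ρ]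
  · have h1 := abs_norm_sub_norm_le y z
    have h2 : 0 ≤ |ρ| * ‖y - z‖ := by positivity
    linarith

omit [NumberField K] in
theorem unit_smul_sub (u : (𝓞 K)ˣ) (y z : mixedEmbedding.mixedSpace K) :
    u • y - u • z = u • (y - z) := by
  rw [mixedEmbedding.unitSMul_smul, mixedEmbedding.unitSMul_smul, mixedEmbedding.unitSMul_smul,
    mul_sub]

theorem norm_unit_smul_le (u : (𝓞 K)ˣ) (y : mixedEmbedding.mixedSpace K) :
    ‖u • y‖ ≤ ‖mixedEmbedding K ((algebraMap (𝓞 K) K) ↑u)‖ * ‖y‖ := by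
  rw [mixedEmbedding.unitSMul_smul]
  exact norm_mul_le _ _

theorem BL.comp_smul {ρ : ℝ} (u : (𝓞 K)ˣ) (f : mixedEmbedding.mixedSpace K → ℝ)
    (h : ∀ ρ' : ℝ, BL (Reg K ρ') f) : BL (Reg K ρ) (fun y => f (u • y)) := by
  set M := ‖mixedEmbedding K ((algebraMap (𝓞 K) K) ↑u)‖ with hM
  have hM0 : 0 ≤ M := norm_nonneg _
  obtain ⟨C, hC, h1, h2⟩ := h (M * ρ)
  have hmem : ∀ y ∈ Reg K ρ, u • y ∈ Reg K (M * ρ) := by
    intro y hy
    refine ⟨?_, (norm_unit_smul_le u y).trans (mul_le_mul_of_nonneg_left hy.2 hM0)⟩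
    show 1 / 2 ≤ mixedEmbedding.norm (u • y)
    rw [mixedEmbedding.norm_unit_smul]
    exact hy.1
  refine ⟨C + C * M, by positivity, fun y hy => ?_, fun y hy z hz => ?_⟩
  · have : 0 ≤ C * M := by positivity
    linarith [h1 _ (hmem y hy)]
  · have h3 := h2 _ (hmem y hy) _ (hmem z hz)
    rw [unit_smul_sub] at h3
    have h4 := mul_le_mul_of_nonneg_left (norm_unit_smul_le u (y - z)) hC.le
    have h5 : 0 ≤ C * ‖y - z‖ := by positivity
    linarith

theorem BL.Nm (A : Set (mixedEmbedding.mixedSpace K)) (ρ : ℝ)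
    (hA : ∀ y ∈ A, ‖y‖ ≤ ρ) : BL A (fun y => Nm K y) := by
  refine BL.congr (BL.prod univ (fun w y => mixedEmbedding.normAtPlace w y ^ w.mult)
    fun w _ => (BL.nap w A ρ hA).pow _) fun y _ => ?_
  exact mixedEmbedding.norm_apply y

theorem Nm_le (y : mixedEmbedding.mixedSpace K) : Nm K y ≤ ‖y‖ ^ finrank ℚ K := by
  show mixedEmbedding.norm y ≤ _
  rw [mixedEmbedding.norm_apply, ← InfinitePlace.sum_mult_eq, ← Finset.prod_pow_eq_pow_sum]
  refine Finset.prod_le_prod (fun w _ => pow_nonneg (mixedEmbedding.normAtPlace_nonneg w y) _)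
    fun w _ => pow_le_pow_left₀ (mixedEmbedding.normAtPlace_nonneg w y) (nap_le w y) _

theorem nap_ge {ρ : ℝ} (hρ : 1 ≤ ρ) (w : InfinitePlace K) (y : mixedEmbedding.mixedSpace K)
    (hy : y ∈ Reg K ρ) : (2 * ρ ^ finrank ℚ K)⁻¹ ≤ mixedEmbedding.normAtPlace w y := by
  have h0 : 0 < ρ := by linarith
  have hp : 1 ≤ ρ ^ finrank ℚ K := one_le_pow₀ hρ
  have h1 : (2 * ρ ^ finrank ℚ K)⁻¹ ≤ 1 := by
    apply inv_le_one_of_one_le₀
    linarith
  by_contra hcon
  push Not at hcon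
  have hw1 : mixedEmbedding.normAtPlace w y < 1 := hcon.trans_le h1
  have hn0 := mixedEmbedding.normAtPlace_nonneg w y
  have h2 : mixedEmbedding.norm y ≤ mixedEmbedding.normAtPlace w y * ρ ^ finrank ℚ K := by
    rw [mixedEmbedding.norm_apply, ← Finset.mul_prod_erase univ _ (mem_univ w)]
    have h3 : mixedEmbedding.normAtPlace w y ^ w.mult ≤ mixedEmbedding.normAtPlace w y := by
      have h4 : 1 ≤ w.mult := InfinitePlace.mult_pos
      calc mixedEmbedding.normAtPlace w y ^ w.mult ≤ mixedEmbedding.normAtPlace w y ^ 1 :=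
            pow_le_pow_of_le_one hn0 hw1.le h4
        _ = _ := pow_one _
    have h5 : ∏ x ∈ univ.erase w, mixedEmbedding.normAtPlace x y ^ x.mult ≤
        ρ ^ finrank ℚ K := by
      calc ∏ x ∈ univ.erase w, mixedEmbedding.normAtPlace x y ^ x.mult
          ≤ ∏ x ∈ univ.erase w, ρ ^ x.mult := Finset.prod_le_prod
            (fun x _ => pow_nonneg (mixedEmbedding.normAtPlace_nonneg x y) _)
            fun x _ => pow_le_pow_left₀ (mixedEmbedding.normAtPlace_nonneg x y)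
              ((nap_le x y).trans hy.2) _
        _ = ρ ^ ∑ x ∈ univ.erase w, x.mult := Finset.prod_pow_eq_pow_sum _ _ _
        _ ≤ ρ ^ finrank ℚ K := by
          apply pow_le_pow_right₀ hρ
          rw [← InfinitePlace.sum_mult_eq]
          exact Finset.sum_le_sum_of_subset (Finset.erase_subset _ _)
    exact mul_le_mul h3 h5 (Finset.prod_nonneg fun x _ =>
      pow_nonneg (mixedEmbedding.normAtPlace_nonneg x y) _) hn0
  have h6 : mixedEmbedding.normAtPlace w y * ρ ^ finrank ℚ K < 1 / 2 := by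
    have h7 : 0 < ρ ^ finrank ℚ K := by positivity
    calc mixedEmbedding.normAtPlace w y * ρ ^ finrank ℚ K
        < (2 * ρ ^ finrank ℚ K)⁻¹ * ρ ^ finrank ℚ K := mul_lt_mul_of_pos_right hcon h7
      _ = 1 / 2 := by field_simp
  have h8 : 1 / 2 ≤ mixedEmbedding.norm y := hy.1
  linarith

variable (K) in
theorem finite_units (M : ℝ) :
    {u : (𝓞 K)ˣ | ∀ w : InfinitePlace K, w (algebraMap (𝓞 K) K u) ≤ M}.Finite := by
  have h := Embeddings.finite_of_norm_le K ℂ M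
  have h2 : (Set.image (fun u : (𝓞 K)ˣ => algebraMap (𝓞 K) K u)
      {u : (𝓞 K)ˣ | ∀ w : InfinitePlace K, w (algebraMap (𝓞 K) K u) ≤ M}).Finite := by
    refine h.subset ?_
    rintro _ ⟨u, hu, rfl⟩
    refine ⟨RingOfIntegers.isIntegral_coe _, fun φ => ?_⟩
    have := hu (InfinitePlace.mk φ)
    rwa [InfinitePlace.apply] at this
  refine h2.of_finite_image ?_
  intro u _ v _ huv
  exact Units.ext (FaithfulSMul.algebraMap_injective (𝓞 K) K huv)

variable (K) in
theorem exists_R0 : ∃ R0 : ℝ, 1 ≤ R0 ∧ ∀ y : mixedEmbedding.mixedSpace K, Nm K y ≠ 0 →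
    ∃ u : (𝓞 K)ˣ, ‖u • y‖ ^ finrank ℚ K ≤ R0 * Nm K y := by
  obtain ⟨R1, hR1⟩ := isBounded_iff_forall_norm_le.1
    (mixedEmbedding.fundamentalCone.isBounded_normLeOne K)
  have hn : 0 < finrank ℚ K := finrank_pos
  refine ⟨max 1 (max R1 0 ^ finrank ℚ K), le_max_left _ _, fun y hy => ?_⟩
  obtain ⟨u, hu⟩ := mixedEmbedding.fundamentalCone.exists_unit_smul_mem hy
  refine ⟨u, ?_⟩
  have hNpos : 0 < Nm K y := lt_of_le_of_ne (mixedEmbedding.norm_nonneg y) (Ne.symm hy)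
  set c : ℝ := (Nm K y) ^ (-(1 / (finrank ℚ K : ℝ))) with hc
  have hcpos : 0 < c := Real.rpow_pos_of_pos hNpos _
  have hcn : c ^ finrank ℚ K = (Nm K y)⁻¹ := by
    rw [hc, ← Real.rpow_natCast, ← Real.rpow_mul hNpos.le]
    rw [show -(1 / (finrank ℚ K : ℝ)) * (finrank ℚ K : ℝ) = -1 by
      have : (finrank ℚ K : ℝ) ≠ 0 := by positivity
      field_simp]
    exact Real.rpow_neg_one _
  have h1 : c • (u • y) ∈ mixedEmbedding.fundamentalCone.normLeOne K := by
    rw [mixedEmbedding.fundamentalCone.mem_normLeOne]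
    refine ⟨mixedEmbedding.fundamentalCone.smul_mem_of_mem hu hcpos.ne', ?_⟩
    rw [mixedEmbedding.norm_smul, abs_of_pos hcpos, hcn, mixedEmbedding.norm_unit_smul]
    exact (inv_mul_cancel₀ hy).le
  have h2 := hR1 _ h1
  rw [norm_smul, Real.norm_eq_abs, abs_of_pos hcpos] at h2
  have h3 : (c * ‖u • y‖) ^ finrank ℚ K ≤ max R1 0 ^ finrank ℚ K :=
    pow_le_pow_left₀ (by positivity) (h2.trans (le_max_left _ _)) _
  rw [mul_pow, hcn, inv_mul_eq_div, div_le_iff₀ hNpos] at h3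
  exact h3.trans (mul_le_mul_of_nonneg_right (le_max_right _ _) hNpos.le)

/-- the cutoff function -/
noncomputable def om (R0 x : ℝ) : ℝ := max 0 (min 1 (2 - x / R0))

theorem om_nonneg (R0 x : ℝ) : 0 ≤ om R0 x := le_max_left _ _

theorem om_le_one (R0 x : ℝ) : om R0 x ≤ 1 := max_le zero_le_one (min_le_left _ _)

theorem om_eq_one {R0 x : ℝ} (hR : 0 < R0) (hx : x ≤ R0) : om R0 x = 1 := by
  have h : 1 ≤ 2 - x / R0 := by
    have : x / R0 ≤ 1 := (div_le_one hR).2 hx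
    linarith
  rw [om, min_eq_left h, max_eq_right zero_le_one]

theorem lt_of_om_ne {R0 x : ℝ} (hR : 0 < R0) (h : om R0 x ≠ 0) : x < 2 * R0 := by
  by_contra hcon
  push Not at hcon
  apply h
  have h1 : 2 ≤ x / R0 := by
    rw [le_div_iff₀ hR]
    exact hcon
  rw [om, max_eq_left]
  exact (min_le_right _ _).trans (by linarith)

theorem om_lip {R0 : ℝ} (hR : 1 ≤ R0) (x x' : ℝ) : |om R0 x - om R0 x'| ≤ 1 * |x - x'| := by
  have h0 : 0 < R0 := by linarith
  have h1 : |om R0 x - om R0 x'| ≤ |(2 - x / R0) - (2 - x' / R0)| := by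
    have a1 := abs_max_sub_max_le_max (0 : ℝ) (min 1 (2 - x / R0)) 0 (min 1 (2 - x' / R0))
    have a2 := abs_min_sub_min_le_max (1 : ℝ) (2 - x / R0) 1 (2 - x' / R0)
    have b1 := a1.trans (max_le (by rw [sub_self, abs_zero]; exact abs_nonneg _) le_rfl)
    exact b1.trans (a2.trans (max_le (by rw [sub_self, abs_zero]; exact abs_nonneg _) le_rfl))
  refine h1.trans ?_
  have h2 : (2 - x / R0) - (2 - x' / R0) = -((x - x') / R0) := by ring
  rw [h2, abs_neg, abs_div, abs_of_pos h0, one_mul]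
  exact div_le_self (abs_nonneg _) hR

/-! ### the partition of unity -/

/-- the bump function -/
noncomputable def ph (R0 : ℝ) (y : mixedEmbedding.mixedSpace K) : ℝ :=
  if Nm K y = 0 then 0 else om R0 (‖y‖ ^ finrank ℚ K / Nm K y)

/-- the sum over the units -/
noncomputable def Sm (R0 : ℝ) (y : mixedEmbedding.mixedSpace K) : ℝ :=
  ∑ᶠ u : (𝓞 K)ˣ, ph R0 (u • y)

theorem ph_nonneg (R0 : ℝ) (y : mixedEmbedding.mixedSpace K) : 0 ≤ ph R0 y := by
  unfold ph
  split_ifs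
  · exact le_rfl
  · exact om_nonneg _ _

theorem Nm_unit (u : (𝓞 K)ˣ) (y : mixedEmbedding.mixedSpace K) : Nm K (u • y) = Nm K y :=
  mixedEmbedding.norm_unit_smul u y

theorem Nm_smul (c : ℝ) (y : mixedEmbedding.mixedSpace K) :
    Nm K (c • y) = |c| ^ finrank ℚ K * Nm K y := mixedEmbedding.norm_smul c y

theorem ph_smul (R0 c : ℝ) (hc : c ≠ 0) (y : mixedEmbedding.mixedSpace K) :
    ph R0 (c • y) = ph R0 y := by
  have h1 : |c| ^ finrank ℚ K ≠ 0 := pow_ne_zero _ (abs_ne_zero.2 hc)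
  unfold ph
  rw [Nm_smul, norm_smul, Real.norm_eq_abs, mul_pow]
  by_cases h : Nm K y = 0
  · rw [if_pos h, if_pos (by rw [h, mul_zero])]
  · rw [if_neg h, if_neg (mul_ne_zero h1 h), mul_div_mul_left _ _ h1]

omit [NumberField K] in
theorem smul_unit_comm (c : ℝ) (u : (𝓞 K)ˣ) (y : mixedEmbedding.mixedSpace K) :
    u • (c • y) = c • (u • y) := by
  rw [mixedEmbedding.unitSMul_smul, mixedEmbedding.unitSMul_smul, mul_smul_comm]

theorem Sm_smul (R0 c : ℝ) (hc : c ≠ 0) (y : mixedEmbedding.mixedSpace K) :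
    Sm R0 (c • y) = Sm R0 y := by
  unfold Sm
  refine finsum_congr fun u => ?_
  rw [smul_unit_comm, ph_smul R0 c hc]

theorem Sm_unit (R0 : ℝ) (u : (𝓞 K)ˣ) (y : mixedEmbedding.mixedSpace K) :
    Sm R0 (u • y) = Sm R0 y := by
  unfold Sm
  rw [← finsum_comp_equiv (Equiv.mulRight u) (f := fun v => ph R0 (v • y))]
  refine finsum_congr fun v => ?_
  rw [Equiv.coe_mulRight, mul_smul]

theorem ph_supp {R0 : ℝ} (hR : 1 ≤ R0) (y : mixedEmbedding.mixedSpace K) (h : ph R0 y ≠ 0) :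
    0 < Nm K y ∧ ‖y‖ ^ finrank ℚ K ≤ 2 * R0 * Nm K y := by
  have hN : Nm K y ≠ 0 := by
    intro h0
    apply h
    unfold ph
    rw [if_pos h0]
  have hpos : 0 < Nm K y := lt_of_le_of_ne (mixedEmbedding.norm_nonneg y) (Ne.symm hN)
  refine ⟨hpos, ?_⟩
  unfold ph at h
  rw [if_neg hN] at h
  have h1 := lt_of_om_ne (by linarith) h
  rw [div_lt_iff₀ hpos] at h1
  exact h1.le

/-- a finite set of units responsible for the region -/
theorem exists_finite {R0 : ℝ} (hR : 1 ≤ R0) {ρ : ℝ} (hρ : 1 ≤ ρ) :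
    ∃ F : Finset (𝓞 K)ˣ, ∀ y ∈ Reg K ρ, ∀ u : (𝓞 K)ˣ, ph R0 (u • y) ≠ 0 → u ∈ F := by
  set M : ℝ := (2 * R0 * ρ ^ finrank ℚ K + 1) * (2 * ρ ^ finrank ℚ K) with hM
  refine ⟨(finite_units K M).toFinset, fun y hy u hu => ?_⟩
  rw [Set.Finite.mem_toFinset]
  intro w
  have hn : finrank ℚ K ≠ 0 := (finrank_pos (R := ℚ) (M := K)).ne'
  obtain ⟨h1, h2⟩ := ph_supp hR _ hu
  rw [Nm_unit] at h1 h2
  have h3 : Nm K y ≤ ρ ^ finrank ℚ K :=
    (Nm_le y).trans (pow_le_pow_left₀ (norm_nonneg y) hy.2 _)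
  have h4 : ‖u • y‖ ^ finrank ℚ K ≤ 2 * R0 * ρ ^ finrank ℚ K :=
    h2.trans (mul_le_mul_of_nonneg_left h3 (by linarith))
  have hρn : 0 < ρ ^ finrank ℚ K := by positivity
  have h5 : ‖u • y‖ ≤ 2 * R0 * ρ ^ finrank ℚ K + 1 := by
    by_contra hcon
    push Not at hcon
    have h6 : 0 < 2 * R0 * ρ ^ finrank ℚ K := by positivity
    have h7 : 1 ≤ ‖u • y‖ := by linarith
    have h8 := le_self_pow₀ h7 hn
    linarith
  have h6 : mixedEmbedding.normAtPlace w (u • y) ≤ 2 * R0 * ρ ^ finrank ℚ K + 1 :=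
    (nap_le w _).trans h5
  rw [mixedEmbedding.unitSMul_smul, map_mul, mixedEmbedding.normAtPlace_apply] at h6
  have h7 := nap_ge hρ w y hy
  have h8 : w (algebraMap (𝓞 K) K u) * (2 * ρ ^ finrank ℚ K)⁻¹ ≤
      2 * R0 * ρ ^ finrank ℚ K + 1 :=
    (mul_le_mul_of_nonneg_left h7 (apply_nonneg w _)).trans h6
  rw [← div_eq_mul_inv, div_le_iff₀ (by positivity)] at h8
  exact h8

theorem finite_ph {R0 : ℝ} (hR : 1 ≤ R0) (y : mixedEmbedding.mixedSpace K) (hy : Nm K y ≠ 0) :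
    {u : (𝓞 K)ˣ | ph R0 (u • y) ≠ 0}.Finite := by
  have hn : finrank ℚ K ≠ 0 := (finrank_pos (R := ℚ) (M := K)).ne'
  have hpos : 0 < Nm K y := lt_of_le_of_ne (mixedEmbedding.norm_nonneg y) (Ne.symm hy)
  set c : ℝ := (Nm K y)⁻¹ + 1 with hc
  have hi : 0 < (Nm K y)⁻¹ := inv_pos.2 hpos
  have hc0 : 0 < c := by positivity
  have hmem : c • y ∈ Reg K (max 1 ‖c • y‖) := by
    refine ⟨?_, le_max_right _ _⟩
    rw [Nm_smul, abs_of_pos hc0]
    have h1 : c ≤ c ^ finrank ℚ K := le_self_pow₀ (by linarith) hn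
    have h2 : (Nm K y)⁻¹ * Nm K y ≤ c ^ finrank ℚ K * Nm K y :=
      mul_le_mul_of_nonneg_right (by linarith) hpos.le
    rw [inv_mul_cancel₀ hy] at h2
    linarith
  obtain ⟨F, hF⟩ := exists_finite (K := K) hR (le_max_left 1 ‖c • y‖)
  refine F.finite_toSet.subset fun u hu => ?_
  refine hF _ hmem u ?_
  rw [smul_unit_comm, ph_smul R0 c hc0.ne']
  exact hu

theorem one_le_Sm {R0 : ℝ} (hR : 1 ≤ R0) (hR0 : ∀ y : mixedEmbedding.mixedSpace K, Nm K y ≠ 0 →
    ∃ u : (𝓞 K)ˣ, ‖u • y‖ ^ finrank ℚ K ≤ R0 * Nm K y) (y : mixedEmbedding.mixedSpace K)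
    (hy : Nm K y ≠ 0) : 1 ≤ Sm R0 y := by
  obtain ⟨u, hu⟩ := hR0 y hy
  have hpos : 0 < Nm K y := lt_of_le_of_ne (mixedEmbedding.norm_nonneg y) (Ne.symm hy)
  have h1 : ph R0 (u • y) = 1 := by
    unfold ph
    rw [Nm_unit, if_neg hy]
    apply om_eq_one (by linarith)
    rw [div_le_iff₀ hpos]
    exact hu
  rw [← h1]
  exact single_le_finsum (f := fun u : (𝓞 K)ˣ => ph R0 (u • y)) u (finite_ph hR y hy)
    fun v => ph_nonneg R0 _

theorem BL_ph {R0 : ℝ} (hR : 1 ≤ R0) (ρ : ℝ) : BL (Reg K ρ) (ph (K := K) R0) := by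
  have h1 : BL (Reg K ρ) (fun y => ‖y‖ ^ finrank ℚ K * (Nm K y)⁻¹) :=
    ((BL.norm (Reg K ρ) ρ fun y hy => hy.2).pow _).mul
      ((BL.Nm (Reg K ρ) ρ fun y hy => hy.2).inv (1 / 2) (by norm_num) fun y hy => hy.1)
  refine BL.congr (h1.comp (om R0) 1 one_pos (fun x => ?_) (om_lip hR)) fun y hy => ?_
  · rw [abs_of_nonneg (om_nonneg _ _)]
    exact om_le_one _ _
  · unfold ph
    rw [if_neg, div_eq_mul_inv]
    intro h
    have := hy.1
    rw [h] at this
    norm_num at this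

theorem BL_Sm {R0 : ℝ} (hR : 1 ≤ R0) {ρ : ℝ} (hρ : 1 ≤ ρ) : BL (Reg K ρ) (Sm (K := K) R0) := by
  obtain ⟨F, hF⟩ := exists_finite (K := K) hR hρ
  refine BL.congr (BL.sum F (fun u y => ph R0 (u • y)) fun u _ =>
    BL.comp_smul u (ph R0) fun ρ' => BL_ph hR ρ') fun y hy => ?_
  exact finsum_eq_sum_of_support_subset _ fun u hu => hF y hy u hu

theorem BL.mono {E : Type} [NormedAddCommGroup E] {A A' : Set E} {f : E → ℝ} (h : BL A f)
    (hA : A' ⊆ A) : BL A' f := by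
  obtain ⟨C, hC, h1, h2⟩ := h
  exact ⟨C, hC, fun y hy => h1 y (hA hy), fun y hy z hz => h2 y (hA hy) z (hA hz)⟩

end

/-- **N2.** A Lipschitz partition of unity for the action of the units exists. -/
theorem unitPart : UnitPart := by
  intro K _ _
  obtain ⟨R0, hR, hR0⟩ := exists_R0 K
  have hS := one_le_Sm (K := K) hR hR0
  refine ⟨fun y => ph R0 y / Sm R0 y, 2 * R0, ?_, ?_, ?_, ?_, ?_, ?_⟩
  · intro y
    exact div_nonneg (ph_nonneg _ _) (finsum_nonneg fun u => ph_nonneg _ _)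
  · intro c y hc
    show ph R0 (c • y) / Sm R0 (c • y) = ph R0 y / Sm R0 y
    rw [ph_smul R0 c hc, Sm_smul R0 c hc]
  · intro y hy
    exact ph_supp hR y fun h => hy (by simp only [h, zero_div])
  · intro ρ
    have h1 : BL (Reg K (max 1 ρ)) (fun y => ph R0 y * (Sm R0 y)⁻¹) := by
      refine (BL_ph hR _).mul ((BL_Sm hR (le_max_left 1 ρ)).inv 1 one_pos fun y hy => ?_)
      refine hS y fun h => ?_
      have := hy.1
      rw [h] at this
      norm_num at this
    obtain ⟨C, hC, _, h2⟩ := h1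
    refine ⟨C, hC, fun y z hy hz hy' hz' => ?_⟩
    simp only [div_eq_mul_inv]
    exact h2 y ⟨hy, hy'.trans (le_max_right _ _)⟩ z ⟨hz, hz'.trans (le_max_right _ _)⟩
  · intro y hy
    refine (finite_ph hR y hy).subset fun u hu h => hu ?_
    simp only [h, zero_div]
  · intro y hy
    have h1 : ∀ u : (𝓞 K)ˣ, ph R0 (u • y) / Sm R0 (u • y) = ph R0 (u • y) * (Sm R0 y)⁻¹ := by
      intro u
      rw [Sm_unit, div_eq_mul_inv]
    rw [finsum_congr h1, ← finsum_mul]
    have h3 := hS y hy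
    have h4 : Sm R0 y ≠ 0 := ne_of_gt (by linarith)
    exact mul_inv_cancel₀ h4

end Pool.Agent.Helper76.NF
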